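import Pool.Agent.H242.LD.Stm

set_option autoImplicit false

/-!
# LD-CODE: a coded Cantor set on the line has positive content
-/

namespace Pool.Agent.H32.LD

open Real Set Metric Filter Topology MeasureTheory
open Pool.Agent.H242.LD
open scoped ENNReal

/-- the uniform measure on sequences -/
noncomputable def um (N : ℕ) [NeZero N] : Measure (ℕ → Fin N) :=
  Measure.infinitePi fun _ : ℕ => (PMF.uniformOfFintype (Fin N)).toMeasure

instance (N : ℕ) [NeZero N] : IsProbabilityMeasure (um N) := by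
  unfold um
  infer_instance

theorem um_cyl (N : ℕ) [NeZero N] (σ : ℕ → Fin N) (n : ℕ) :
    um N {τ | ∀ i < n, τ i = σ i} = ((N : ℝ≥0∞)⁻¹) ^ n := by
  have h1 : {τ : ℕ → Fin N | ∀ i < n, τ i = σ i} =
      Set.pi (Finset.range n : Finset ℕ) (fun i => {σ i}) := by
    ext τ
    simp only [mem_ofPred_eq, Set.mem_pi, Finset.mem_coe, Finset.mem_range, mem_singleton_iff]
  rw [h1, um, Measure.infinitePi_pi _ (fun i _ => MeasurableSet.singleton _)]
  rw [Finset.prod_congr rfl (fun i _ => PMF.toMeasure_apply_singleton _ _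
    (MeasurableSet.singleton _))]
  simp only [PMF.uniformOfFintype_apply, Fintype.card_fin, Finset.prod_const, Finset.card_range]

theorem key (N : ℕ) [NeZero N] (r κ e : ℝ) (pt : (ℕ → Fin N) → ℝ) (hN : 2 ≤ N) (hr : 0 < r)
    (hr1 : r < 1) (hκ : 0 < κ) (he : 0 < e) (hre : r ^ e = (N : ℝ)⁻¹)
    (h : ∀ (σ τ : ℕ → Fin N) (n : ℕ), (∀ i < n, σ i = τ i) → σ n ≠ τ n →
      κ * r ^ n ≤ |pt σ - pt τ|) (A : Set ℝ) :
    ENNReal.ofReal (κ ^ e) * um N (pt ⁻¹' A) ≤ (Metric.ediam A) ^ e := by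
  by_cases htop : Metric.ediam A = ⊤
  · rw [htop, ENNReal.top_rpow_of_pos he]
    exact le_top
  rcases Set.eq_empty_or_nonempty (pt ⁻¹' A) with hemp | ⟨σ, hσ⟩
  · rw [hemp, measure_empty, mul_zero]
    exact zero_le
  obtain ⟨d, hd⟩ : ∃ d : ℝ, d = (Metric.ediam A).toReal := ⟨_, rfl⟩
  have hd0 : 0 ≤ d := by rw [hd]; exact ENNReal.toReal_nonneg
  have hdA : Metric.ediam A = ENNReal.ofReal d := by rw [hd, ENNReal.ofReal_toReal htop]
  have hdist : ∀ x ∈ A, ∀ y ∈ A, |x - y| ≤ d := by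
    intro x hx y hy
    have h1 := Metric.edist_le_ediam_of_mem hx hy
    rw [hdA, edist_dist, ENNReal.ofReal_le_ofReal_iff hd0, Real.dist_eq] at h1
    exact h1
  have hcyl : ∀ n : ℕ, d < κ * r ^ n → um N (pt ⁻¹' A) ≤ ((N : ℝ≥0∞)⁻¹) ^ (n + 1) := by
    intro n hn
    rw [← um_cyl N σ (n + 1)]
    refine measure_mono fun τ hτ => ?_
    by_contra hcon
    have hex : ∃ j, j < n + 1 ∧ τ j ≠ σ j := by
      simp only [mem_ofPred_eq, not_forall] at hcon
      obtain ⟨j, hj, hne⟩ := hcon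
      exact ⟨j, hj, hne⟩
    classical
    have h1 := Nat.find_spec hex
    have h2 : ∀ i < Nat.find hex, σ i = τ i := by
      intro i hi
      have h3 := Nat.find_min hex hi
      by_contra h4
      exact h3 ⟨lt_trans hi h1.1, fun h5 => h4 h5.symm⟩
    have h3 := h σ τ (Nat.find hex) h2 (fun h5 => h1.2 h5.symm)
    have h4 := hdist _ hσ _ hτ
    have h5 : r ^ n ≤ r ^ (Nat.find hex) :=
      pow_le_pow_of_le_one hr.le hr1.le (Nat.lt_succ_iff.1 h1.1)
    have h6 := mul_le_mul_of_nonneg_left h5 hκ.le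
    linarith
  have hNR : (0 : ℝ) < N := by
    have : 0 < N := by omega
    exact_mod_cast this
  by_cases hdk : κ ≤ d
  · rw [hdA, ENNReal.ofReal_rpow_of_nonneg hd0 he.le]
    calc ENNReal.ofReal (κ ^ e) * um N (pt ⁻¹' A) ≤ ENNReal.ofReal (κ ^ e) * 1 := by
          gcongr
          exact prob_le_one
      _ = ENNReal.ofReal (κ ^ e) := mul_one _
      _ ≤ ENNReal.ofReal (d ^ e) :=
          ENNReal.ofReal_le_ofReal (Real.rpow_le_rpow hκ.le hdk he.le)
  rw [not_le] at hdk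
  rcases hd0.eq_or_lt with hd1 | hd1
  · have h0 : um N (pt ⁻¹' A) ≤ 0 := by
      have hlim : Tendsto (fun n : ℕ => ((N : ℝ≥0∞)⁻¹) ^ (n + 1)) atTop (𝓝 0) := by
        refine (tendsto_add_atTop_iff_nat 1).2 (ENNReal.tendsto_pow_atTop_nhds_zero_of_lt_one ?_)
        rw [ENNReal.inv_lt_one]
        exact_mod_cast (by omega : 1 < N)
      exact ge_of_tendsto' hlim fun n => hcyl n (by rw [← hd1]; positivity)
    rw [le_antisymm h0 zero_le, mul_zero]
    exact zero_le
  · have hex : ∃ n : ℕ, κ * r ^ n ≤ d := by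
      have hlim : Tendsto (fun n : ℕ => κ * r ^ n) atTop (𝓝 (κ * 0)) :=
        (tendsto_pow_atTop_nhds_zero_of_lt_one hr.le hr1).const_mul κ
      rw [mul_zero] at hlim
      obtain ⟨n, hn⟩ := (hlim.eventually (gt_mem_nhds hd1)).exists
      exact ⟨n, hn.le⟩
    classical
    obtain ⟨m, hm, hmin⟩ : ∃ m : ℕ, κ * r ^ m ≤ d ∧ ∀ i < m, ¬ κ * r ^ i ≤ d :=
      ⟨Nat.find hex, Nat.find_spec hex, fun i hi => Nat.find_min hex hi⟩
    obtain ⟨n, rfl⟩ : ∃ n, m = n + 1 := by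
      rcases m with _ | n
      · rw [pow_zero, mul_one] at hm
        exact absurd hm (not_le.2 hdk)
      · exact ⟨n, rfl⟩
    have h1 := hcyl n (not_le.1 (hmin n (Nat.lt_succ_self n)))
    have h2 : κ ^ e * ((N : ℝ)⁻¹) ^ (n + 1) = (κ * r ^ (n + 1)) ^ e := by
      rw [Real.mul_rpow hκ.le (by positivity), ← hre, ← Real.rpow_natCast, ← Real.rpow_mul hr.le,
        ← Real.rpow_natCast, ← Real.rpow_mul hr.le, mul_comm e]
    have h3 : ((N : ℝ≥0∞)⁻¹) ^ (n + 1) = ENNReal.ofReal (((N : ℝ)⁻¹) ^ (n + 1)) := by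
      rw [ENNReal.ofReal_pow (by positivity), ENNReal.ofReal_inv_of_pos hNR,
        ENNReal.ofReal_natCast]
    rw [hdA, ENNReal.ofReal_rpow_of_nonneg hd0 he.le]
    calc ENNReal.ofReal (κ ^ e) * um N (pt ⁻¹' A) ≤
          ENNReal.ofReal (κ ^ e) * ENNReal.ofReal (((N : ℝ)⁻¹) ^ (n + 1)) := by
          rw [← h3]
          gcongr
      _ = ENNReal.ofReal ((κ * r ^ (n + 1)) ^ e) := by
          rw [← ENNReal.ofReal_mul (by positivity), h2]
      _ ≤ ENNReal.ofReal (d ^ e) :=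
          ENNReal.ofReal_le_ofReal (Real.rpow_le_rpow (by positivity) hm he.le)

theorem ld_CODE : S_CODE := by
  intro N r κ pt hN hr hr1 hκ h t ht
  have hN0 : NeZero N := ⟨by omega⟩
  obtain ⟨e, he⟩ : ∃ e : ℝ, e = Real.log N / Real.log (1 / r) := ⟨_, rfl⟩
  rw [← he]
  have hN1 : (1 : ℝ) < N := by exact_mod_cast (by omega : 1 < N)
  have hlN : 0 < Real.log N := Real.log_pos hN1
  have hlr : Real.log (1 / r) = -Real.log r := by rw [one_div, Real.log_inv]
  have hlr0 : Real.log r < 0 := Real.log_neg hr hr1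
  have he0 : 0 < e := by
    rw [he, hlr]
    exact div_pos hlN (by linarith)
  have hre : r ^ e = (N : ℝ)⁻¹ := by
    rw [Real.rpow_def_of_pos hr, he, hlr]
    have h1 : Real.log r * (Real.log N / -Real.log r) = -Real.log N := by
      have hne : Real.log r ≠ 0 := hlr0.ne
      rw [div_neg, mul_neg, mul_div_cancel₀ _ hne]
    rw [h1, Real.exp_neg, Real.exp_log (by linarith)]
  have huniv : (univ : Set (ℕ → Fin N)) ⊆ ⋃ i, pt ⁻¹' (t i) := by
    intro σ _
    have h1 := ht (mem_range_self σ)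
    rw [mem_iUnion] at h1 ⊢
    exact h1
  calc ENNReal.ofReal (κ ^ e) = ENNReal.ofReal (κ ^ e) * um N univ := by
        rw [measure_univ, mul_one]
    _ ≤ ENNReal.ofReal (κ ^ e) * ∑' i, um N (pt ⁻¹' (t i)) := by
        gcongr
        exact (measure_mono huniv).trans (measure_iUnion_le _)
    _ = ∑' i, ENNReal.ofReal (κ ^ e) * um N (pt ⁻¹' (t i)) := ENNReal.tsum_mul_left.symm
    _ ≤ ∑' i, (Metric.ediam (t i)) ^ e :=
        ENNReal.tsum_le_tsum fun i => key N r κ e pt hN hr hr1 hκ he0 hre h (t i)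

end Pool.Agent.H32.LD
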